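import Pool.Agent.TH990.FA.Defs

/-!
Five arms in annuli: further events.
-/

set_option autoImplicit false

namespace Pool.Agent.TH990.FA

open H974 H12S Finset

/-- The vertices `u`, `v` are at sup distance at most `l`. -/
def Cls (l : ℕ) (u v : Vtx) : Prop := |u.1 - v.1| ≤ l ∧ |u.2 - v.2| ≤ l

/-- Open paths which start in the box of radius `m + 1` are short. -/
def TrapE (c : Vtx) (m l : ℕ) (F : Set Edg) : Prop :=
  ∀ u v : Vtx, rad c u ≤ m + 1 → Reach F u v → Cls l u v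

/-- Two different crossing clusters of the annulus come close to each other at its inner boundary. -/
def Near (c : Vtx) (m k l : ℕ) (F : Set Edg) : Prop :=
  ∃ t1 ∈ Tch c m, ∃ t2 ∈ Tch c m, Cls l t1 t2 ∧ (∃ w ∈ Rg c k, w ∈ Cl (An c m k) F t1) ∧
    (∃ w ∈ Rg c k, w ∈ Cl (An c m k) F t2) ∧ t2 ∉ Cl (An c m k) F t1

/-- `j` different open clusters cross the annulus. -/
def MC (c : Vtx) (d k j : ℕ) (F : Set Edg) : Prop :=
  ∃ w : Fin j → Vtx, (∀ i, w i ∈ Rg c k ∧ ∃ u ∈ Tch c d, w i ∈ Cl (An c d k) F u) ∧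
    ∀ i i', i ≠ i' → w i' ∉ Cl (An c d k) F (w i)

end Pool.Agent.TH990.FA
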