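import Pool.Agent.H974R2.Circ
import Pool.Agent.H12R2.Sep.BlkSum

/-!
Five arms in annuli: definitions and walks modulo 2.
-/

set_option autoImplicit false

namespace Pool.Agent.TH990.FA

open H974 H12S Finset

/-- Sup distance. -/
def rad (c v : Vtx) : ℤ := max |v.1 - c.1| |v.2 - c.2|

/-- Neighbours in the square lattice. -/
def Nb (u v : Vtx) : Prop :=
  (u.1 = v.1 ∧ (u.2 = v.2 + 1 ∨ v.2 = u.2 + 1)) ∨ (u.2 = v.2 ∧ (u.1 = v.1 + 1 ∨ v.1 = u.1 + 1))

/-- Edges with both ends in `V`. -/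
def EV (V : Set Vtx) : Set Edg := {e | src e ∈ V ∧ tgt e ∈ V}

/-- The open cluster of `u` in the region `V`. -/
def Cl (V : Set Vtx) (F : Set Edg) (u : Vtx) : Set Vtx := {v | Reach (F ∩ EV V) u v}

/-- A lattice path in `W`. -/
def VR (W : Set Vtx) (x y : Vtx) : Prop := x ∈ W ∧ Reach (EV W) x y

/-- The complement of two clusters. -/
def Co (V : Set Vtx) (F : Set Edg) (u1 u2 : Vtx) : Set Vtx := V \ (Cl V F u1 ∪ Cl V F u2)

/-- Five arms from `I` to `O` in the region `V`: two different open clusters of the region join `I`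
and `O`, and so does a lattice path which avoids these clusters. -/
def Five (V I O : Set Vtx) (F : Set Edg) : Prop :=
  ∃ u1 ∈ I, ∃ u2 ∈ I, ∃ x ∈ I, (∃ w ∈ O, w ∈ Cl V F u1) ∧ (∃ w ∈ O, w ∈ Cl V F u2) ∧
    u2 ∉ Cl V F u1 ∧ ∃ y ∈ O, VR (Co V F u1 u2) x y

/-- Three different open clusters of the region join `I` and `O`. -/
def Tri (V I O : Set Vtx) (F : Set Edg) : Prop :=
  ∃ u1 ∈ I, ∃ u2 ∈ I, ∃ u3 ∈ I, (∃ w ∈ O, w ∈ Cl V F u1) ∧ (∃ w ∈ O, w ∈ Cl V F u2) ∧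
    (∃ w ∈ O, w ∈ Cl V F u3) ∧ u2 ∉ Cl V F u1 ∧ u3 ∉ Cl V F u1 ∧ u3 ∉ Cl V F u2

/-- Two different open clusters of the region join `I` and `O`, and so do two different components
of their complement. -/
def Gate (V I O : Set Vtx) (F : Set Edg) : Prop :=
  ∃ u1 ∈ I, ∃ u2 ∈ I, ∃ x ∈ I, ∃ y ∈ I, (∃ w ∈ O, w ∈ Cl V F u1) ∧ (∃ w ∈ O, w ∈ Cl V F u2) ∧
    u2 ∉ Cl V F u1 ∧ (∃ w ∈ O, VR (Co V F u1 u2) x w) ∧ (∃ w ∈ O, VR (Co V F u1 u2) y w) ∧
    ¬ VR (Co V F u1 u2) x y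

/-- The vertices of the annulus. -/
def An (c : Vtx) (d k : ℕ) : Set Vtx := {v | (d : ℤ) < rad c v ∧ rad c v ≤ k}

/-- The vertices outside the box of radius `d` which are next to it. -/
def Tch (c : Vtx) (d : ℕ) : Set Vtx := {v | (d : ℤ) < rad c v ∧ ∃ w, rad c w ≤ d ∧ Nb v w}

/-- The vertices at distance `k`. -/
def Rg (c : Vtx) (k : ℕ) : Set Vtx := {v | rad c v = k}

/-- Five arms in the annulus. -/
def F5 (c : Vtx) (d k : ℕ) (F : Set Edg) : Prop := Five (An c d k) (Tch c d) (Rg c k) F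

/-- Six arms in the annulus. -/
def F6 (c : Vtx) (d k : ℕ) (F : Set Edg) : Prop :=
  Tri (An c d k) (Tch c d) (Rg c k) F ∨ Gate (An c d k) (Tch c d) (Rg c k) F

/-- An open path crosses the annulus. -/
def F1 (c : Vtx) (d k : ℕ) (F : Set Edg) : Prop :=
  ∃ u ∈ Tch c d, ∃ w ∈ Rg c k, w ∈ Cl (An c d k) F u

/-! ### Walks modulo 2 -/

/-- Crossing number (mod 2) of the step from `u` to `v` with the horizontal half-line which starts
in the face with lower left corner `b` and goes to the right. -/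
def cn (b u v : Vtx) : ZMod 2 :=
  if b.1 < u.1 ∧ u.1 = v.1 ∧ ((u.2 = b.2 ∧ v.2 = b.2 + 1) ∨ (v.2 = b.2 ∧ u.2 = b.2 + 1)) then 1
  else 0

/-- A walk with steps in `R`, and its crossing numbers. -/
inductive Wr (R : Vtx → Vtx → Prop) : Vtx → Vtx → (Vtx → ZMod 2) → Prop
  | nil (u : Vtx) : Wr R u u (fun _ => 0)
  | cons {u v w : Vtx} {f : Vtx → ZMod 2} :
      R u v → Wr R v w f → Wr R u w (fun b => cn b u v + f b)

/-- Steps inside `S`. -/
def RS (S : Set Vtx) (u v : Vtx) : Prop := Nb u v ∧ u ∈ S ∧ v ∈ S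

/-- No closed walk of open edges of the annulus winds around the centre (modulo 2). -/
def NoC (c : Vtx) (d k : ℕ) (F : Set Edg) : Prop :=
  ∀ (v : Vtx) (f : Vtx → ZMod 2), Wr (Adj (F ∩ EV (An c d k))) v v f → f c = 0

end Pool.Agent.TH990.FA
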