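import Pool.Agent.TH990.FA.Walk

/-!
The boundary of a large square, and the parity of three legs.
-/

set_option autoImplicit false

namespace Pool.Agent.TH990.FA

open H974 H12S Finset

/-- The boundary of the square of radius `M`, counterclockwise from the lower right corner. -/
def rr (M t : ℤ) : Vtx :=
  if t < 2 * M then (M, -M + t) else if t < 4 * M then (3 * M - t, M)
  else if t < 6 * M then (-M, 5 * M - t) else (t - 7 * M, -M)

theorem rad0_le {v : Vtx} {k : ℤ} : rad (0, 0) v ≤ k ↔ (-k ≤ v.1 ∧ v.1 ≤ k) ∧ (-k ≤ v.2 ∧ v.2 ≤ k) := by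
  rw [rad_le]
  simp only
  omega

theorem rad0_lt {v : Vtx} {k : ℤ} : rad (0, 0) v < k ↔ (-k < v.1 ∧ v.1 < k) ∧ (-k < v.2 ∧ v.2 < k) := by
  have : rad (0, 0) v < k ↔ rad (0, 0) v ≤ k - 1 := by omega
  rw [this, rad0_le]
  omega

theorem rad0_eq {v : Vtx} {k : ℤ} : rad (0, 0) v = k ↔
    ((-k ≤ v.1 ∧ v.1 ≤ k) ∧ (-k ≤ v.2 ∧ v.2 ≤ k)) ∧ (v.1 = k ∨ v.1 = -k ∨ v.2 = k ∨ v.2 = -k) := by
  rw [← rad0_le]
  constructor
  · intro h
    refine ⟨h.le, ?_⟩
    have h1 : ¬ rad (0, 0) v < k := by omega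
    rw [rad0_lt] at h1
    have h2 := h.le
    rw [rad0_le] at h2
    omega
  · rintro ⟨h1, h2⟩
    refine le_antisymm h1 ?_
    by_contra h3
    rw [not_le, rad0_lt] at h3
    omega

theorem rad_rr {M t : ℤ} (hM : 1 ≤ M) (h0 : 0 ≤ t) (h1 : t < 8 * M) : rad (0, 0) (rr M t) = M := by
  rw [rad0_eq]
  unfold rr
  split_ifs <;> simp only [true_or, or_true, true_and, and_true, false_or, or_false, false_and, and_false] <;> omega

theorem rr_step {M t : ℤ} (hM : 1 ≤ M) (h0 : 0 ≤ t) (h1 : t + 1 < 8 * M) :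
    Nb (rr M t) (rr M (t + 1)) := by
  unfold rr Nb
  split_ifs <;> simp only [true_or, or_true, true_and, and_true, false_or, or_false, false_and, and_false] <;> omega

theorem rr_wrap {M : ℤ} (hM : 1 ≤ M) : Nb (rr M (8 * M - 1)) (rr M 0) := by
  unfold rr Nb
  split_ifs <;> simp only [true_or, or_true, true_and, and_true, false_or, or_false, false_and, and_false] <;> omega

theorem rr_inj {M s t : ℤ} (hM : 1 ≤ M) (h0 : 0 ≤ s) (h1 : s < 8 * M) (h2 : 0 ≤ t) (h3 : t < 8 * M)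
    (h : rr M s = rr M t) : s = t := by
  unfold rr at h
  split_ifs at h <;> simp only [Prod.mk.injEq] at h <;> omega

theorem cn_rr {M t : ℤ} {z : Vtx} (hM : 1 ≤ M) (hz : rad (0, 0) z < M) (h0 : 0 ≤ t)
    (h1 : t + 1 < 8 * M) : cn z (rr M t) (rr M (t + 1)) = if t = z.2 + M then 1 else 0 := by
  rw [rad0_lt] at hz
  unfold cn
  have key : (z.1 < (rr M t).1 ∧ (rr M t).1 = (rr M (t + 1)).1 ∧
      (((rr M t).2 = z.2 ∧ (rr M (t + 1)).2 = z.2 + 1) ∨
        ((rr M (t + 1)).2 = z.2 ∧ (rr M t).2 = z.2 + 1))) ↔ t = z.2 + M := by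
    unfold rr
    split_ifs <;> simp only [true_or, or_true, true_and, and_true, false_or, or_false, false_and, and_false] <;> constructor <;> intro h <;> omega
  by_cases h : t = z.2 + M
  · rw [if_pos (key.2 h), if_pos h]
  · rw [if_neg (fun h' => h (key.1 h')), if_neg h]

theorem cn_wrap {M : ℤ} {z : Vtx} (hM : 1 ≤ M) (hz : rad (0, 0) z < M) :
    cn z (rr M (8 * M - 1)) (rr M 0) = 0 := by
  rw [rad0_lt] at hz
  unfold cn
  rw [if_neg]
  unfold rr
  split_ifs <;> simp only <;> omega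

theorem arc_up {M a b : ℤ} (hM : 1 ≤ M) (h0 : 0 ≤ a) (hab : a ≤ b) (h1 : b < 8 * M) :
    ∃ f, Wr (RS {v | ∃ t, a ≤ t ∧ t ≤ b ∧ v = rr M t}) (rr M a) (rr M b) f ∧
      ∀ z, rad (0, 0) z < M → f z = if a ≤ z.2 + M ∧ z.2 + M < b then 1 else 0 := by
  induction b, hab using Int.leInduction with
  | base =>
    refine ⟨_, Wr.nil _, fun z _ => ?_⟩
    rw [if_neg (by omega)]
  | succ b hb ih =>
    obtain ⟨f, hf, hz⟩ := ih (by omega)
    refine ⟨_, (hf.mono (fun u v h => RS.mono ?_ h)).append (Wr.single ?_), fun z hz' => ?_⟩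
    · rintro v ⟨t, h2, h3, h4⟩
      exact ⟨t, h2, by omega, h4⟩
    · exact ⟨rr_step hM (by omega) h1, ⟨b, by omega, by omega, rfl⟩, ⟨b + 1, by omega, by omega, rfl⟩⟩
    · rw [hz z hz', cn_rr hM hz' (by omega) h1]
      split_ifs <;> first | rfl | (exfalso; omega)

theorem arc_dn {M a b : ℤ} (hM : 1 ≤ M) (h0 : 0 ≤ a) (hab : a < b) (h1 : b < 8 * M) :
    ∃ f, Wr (RS {v | ∃ t, 0 ≤ t ∧ t < 8 * M ∧ (b ≤ t ∨ t ≤ a) ∧ v = rr M t}) (rr M b) (rr M a) f ∧
      ∀ z, rad (0, 0) z < M → f z = 1 + if a ≤ z.2 + M ∧ z.2 + M < b then 1 else 0 := by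
  obtain ⟨f, hf, hfz⟩ := arc_up hM (show 0 ≤ b by omega) (show b ≤ 8 * M - 1 by omega) (by omega)
  obtain ⟨g, hg, hgz⟩ := arc_up hM le_rfl h0 (show a < 8 * M by omega)
  refine ⟨_, ((hf.mono (fun u v h => RS.mono ?_ h)).append (Wr.single ?_)).append
    (hg.mono (fun u v h => RS.mono ?_ h)), fun z hz => ?_⟩
  · rintro v ⟨t, h2, h3, h4⟩
    exact ⟨t, by omega, by omega, Or.inl h2, h4⟩
  · exact ⟨rr_wrap hM, ⟨8 * M - 1, by omega, by omega, Or.inl (by omega), rfl⟩,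
      ⟨0, le_rfl, by omega, Or.inr h0, rfl⟩⟩
  · rintro v ⟨t, h2, h3, h4⟩
    exact ⟨t, by omega, by omega, Or.inr h3, h4⟩
  · rw [hfz z hz, hgz z hz, cn_wrap hM hz]
    rw [rad0_lt] at hz
    split_ifs <;> first | (exfalso; omega) | decide

/-- Crossing number of the arc from `i` to `j` which avoids `k`. -/
def ro (i j k t : ℤ) : ZMod 2 :=
  (if min i j ≤ t ∧ t < max i j then 1 else 0) + (if min i j < k ∧ k < max i j then 1 else 0)

theorem ro_symm (i j k t : ℤ) : ro i j k t = ro j i k t := by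
  unfold ro
  rw [min_comm, max_comm]

theorem ro_side {i j k k' : ℤ} (h : (min i j < k ∧ k < max i j) ↔ (min i j < k' ∧ k' < max i j))
    (t : ℤ) : ro i j k t = ro i j k' t := by
  unfold ro
  by_cases h1 : min i j < k ∧ k < max i j
  · rw [if_pos h1, if_pos (h.1 h1)]
  · rw [if_neg h1, if_neg (fun h2 => h1 (h.2 h2))]

theorem ro_sum {i j k : ℤ} (h1 : i ≠ j) (h2 : j ≠ k) (h3 : i ≠ k) (t : ℤ) :
    ro i j k t + ro j k i t + ro i k j t = 1 := by
  have key : ∀ {i j k : ℤ}, i < j → j < k → ro i j k t + ro j k i t + ro i k j t = 1 := by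
    intro i j k h1 h2
    unfold ro
    rw [min_eq_left h1.le, max_eq_right h1.le, min_eq_left h2.le, max_eq_right h2.le,
      min_eq_left (h1.trans h2).le, max_eq_right (h1.trans h2).le]
    split_ifs <;> first | (exfalso; omega) | decide
  rcases lt_or_gt_of_ne h1 with a | a <;> rcases lt_or_gt_of_ne h2 with b | b <;>
    rcases lt_or_gt_of_ne h3 with c | c
  · exact key a b
  · omega
  · have := key (i := i) (j := k) (k := j) c b
    rw [ro_symm k j] at this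
    linear_combination this
  · have := key (i := k) (j := i) (k := j) c a
    rw [ro_symm k i, ro_symm k j] at this
    linear_combination this
  · have := key (i := j) (j := i) (k := k) a c
    rw [ro_symm j i] at this
    linear_combination this
  · have := key (i := j) (j := k) (k := i) b c
    rw [ro_symm k i, ro_symm j i] at this
    linear_combination this
  · omega
  · have := key (i := k) (j := j) (k := i) b a
    rw [ro_symm k j, ro_symm j i, ro_symm k i] at this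
    linear_combination this

theorem arc {M i j k : ℤ} (hM : 1 ≤ M) (hi : 0 ≤ i ∧ i < 8 * M) (hj : 0 ≤ j ∧ j < 8 * M)
    (hk : 0 ≤ k ∧ k < 8 * M) (h1 : i ≠ j) (h2 : j ≠ k) (h3 : i ≠ k) :
    ∃ f, Wr (RS {v | rad (0, 0) v = M ∧ v ≠ rr M k}) (rr M i) (rr M j) f ∧
      ∀ z, rad (0, 0) z < M → f z = ro i j k (z.2 + M) := by
  have key : ∀ {i j : ℤ}, (0 ≤ i ∧ i < 8 * M) → (0 ≤ j ∧ j < 8 * M) → i < j → j ≠ k → i ≠ k →
      ∃ f, Wr (RS {v | rad (0, 0) v = M ∧ v ≠ rr M k}) (rr M i) (rr M j) f ∧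
      ∀ z, rad (0, 0) z < M → f z = ro i j k (z.2 + M) := by
    intro i j hi hj hij h2 h3
    by_cases hs : i < k ∧ k < j
    · obtain ⟨f, hf, hz⟩ := arc_dn hM hi.1 hij hj.2
      refine ⟨f, (hf.symm (fun u v h => h.symm)).mono (fun u v h => RS.mono ?_ h), fun z h => ?_⟩
      · rintro v ⟨t, h4, h5, h6, rfl⟩
        exact ⟨rad_rr hM h4 h5, fun h => by have := rr_inj hM h4 h5 hk.1 hk.2 h; omega⟩
      · rw [hz z h]
        unfold ro
        rw [min_eq_left hij.le, max_eq_right hij.le, if_pos hs]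
        ring
    · obtain ⟨f, hf, hz⟩ := arc_up hM hi.1 hij.le hj.2
      refine ⟨f, hf.mono (fun u v h => RS.mono ?_ h), fun z h => ?_⟩
      · rintro v ⟨t, h4, h5, rfl⟩
        exact ⟨rad_rr hM (by omega) (by omega),
          fun h => by have := rr_inj hM (by omega) (by omega) hk.1 hk.2 h; omega⟩
      · rw [hz z h]
        unfold ro
        rw [min_eq_left hij.le, max_eq_right hij.le, if_neg hs]
        ring
  rcases lt_or_gt_of_ne h1 with a | a
  · exact key hi hj a h2 h3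
  · obtain ⟨f, hf, hz⟩ := key hj hi a h3 h2
    exact ⟨f, hf.symm (fun u v h => h.symm), fun z h => by rw [hz z h, ro_symm]⟩

theorem out_nb {c v : Vtx} {M : ℤ} (h : rad c v = M) (hM : 0 ≤ M) : ∃ q, Nb v q ∧ rad c q = M + 1 := by
  have h1 := h.le
  have h2 : M - 1 < rad c v := by omega
  rw [rad_le] at h1
  rw [rad_lt] at h2
  have key : ∀ q : Vtx, Nb v q → M < rad c q → ∃ q, Nb v q ∧ rad c q = M + 1 := by
    intro q hq hr
    have := rad_nb (c := c) hq
    exact ⟨q, hq, by omega⟩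
  rcases h2 with (h2 | h2) | (h2 | h2)
  · exact key (v.1 - 1, v.2) (Or.inr ⟨rfl, Or.inl (by simp only; omega)⟩) (by rw [rad_lt]; simp only; omega)
  · exact key (v.1 + 1, v.2) (Or.inr ⟨rfl, Or.inr rfl⟩) (by rw [rad_lt]; simp only; omega)
  · exact key (v.1, v.2 - 1) (Or.inl ⟨rfl, Or.inl (by simp only; omega)⟩) (by rw [rad_lt]; simp only; omega)
  · exact key (v.1, v.2 + 1) (Or.inl ⟨rfl, Or.inr rfl⟩) (by rw [rad_lt]; simp only; omega)

/-- The closed curve of two legs and an arc. -/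
theorem curve_ex {M i j k : ℤ} (hM : 1 ≤ M) (hi : 0 ≤ i ∧ i < 8 * M) (hj : 0 ≤ j ∧ j < 8 * M)
    (hk : 0 ≤ k ∧ k < 8 * M) (h1 : i ≠ j) (h2 : j ≠ k) (h3 : i ≠ k) {S1 S2 : Set Vtx} {o : Vtx}
    {f1 f2 : Vtx → ZMod 2} (w1 : Wr (RS (S1 ∪ {rr M i})) o (rr M i) f1)
    (w2 : Wr (RS (S2 ∪ {rr M j})) o (rr M j) f2) :
    ∃ f, Wr (RS (S1 ∪ S2 ∪ {v | rad (0, 0) v = M ∧ v ≠ rr M k})) o o f ∧
      ∀ z, rad (0, 0) z < M → f z = f1 z + f2 z + ro i j k (z.2 + M) := by
  obtain ⟨g, hg, hgz⟩ := arc hM hi hj hk h1 h2 h3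
  refine ⟨_, ((w1.mono (fun u v h => RS.mono ?_ h)).append (hg.mono (fun u v h => RS.mono ?_ h))).append
    ((w2.symm (fun u v h => h.symm)).mono (fun u v h => RS.mono ?_ h)), fun z hz => ?_⟩
  · rintro v (hv | hv)
    · exact Or.inl (Or.inl hv)
    · rw [Set.mem_singleton_iff] at hv
      subst hv
      exact Or.inr ⟨rad_rr hM hi.1 hi.2, fun h => h3 (rr_inj hM hi.1 hi.2 hk.1 hk.2 h)⟩
  · intro v hv
    exact Or.inr hv
  · rintro v (hv | hv)
    · exact Or.inl (Or.inr hv)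
    · rw [Set.mem_singleton_iff] at hv
      subst hv
      exact Or.inr ⟨rad_rr hM hj.1 hj.2, fun h => h2 (rr_inj hM hj.1 hj.2 hk.1 hk.2 h)⟩
  · rw [hgz z hz]
    ring

/-- Its crossing number vanishes at a vertex which is joined to the boundary point `k`. -/
theorem curve_zero {M k : ℤ} (hM : 1 ≤ M) (hk : 0 ≤ k ∧ k < 8 * M) {S : Set Vtx}
    (hS : ∀ v ∈ S, rad (0, 0) v < M) {o : Vtx} {f : Vtx → ZMod 2}
    (w : Wr (RS (S ∪ {v | rad (0, 0) v = M ∧ v ≠ rr M k})) o o f) {z : Vtx}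
    (hp : VR ({v | rad (0, 0) v < M ∧ v ∉ S} ∪ {rr M k}) z (rr M k)) : f z = 0 := by
  obtain ⟨q, hq, hqr⟩ := out_nb (rad_rr hM hk.1 hk.2) (by omega)
  have hr := rad_rr hM hk.1 hk.2
  have h1 : VR ({v | rad (0, 0) v < M ∧ v ∉ S} ∪ {rr M k} ∪ {q}) z q :=
    (hp.mono (fun v hv => Or.inl hv)).trans
      (VR.single hq (Or.inl (Or.inr rfl)) (Or.inr rfl))
  rw [closed_vr ?_ h1 w]
  · refine closed_far (c := (0, 0)) (k := M) ?_ w (by omega)
    rintro x (hx | hx)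
    · exact (hS x hx).le
    · exact hx.1.le
  · rw [Set.disjoint_left]
    rintro x (hx | hx) ((hx' | hx') | hx')
    · exact hx'.2 hx
    · rw [Set.mem_singleton_iff] at hx'
      subst hx'
      have := hS _ hx
      omega
    · rw [Set.mem_singleton_iff] at hx'
      subst hx'
      have := hS _ hx
      omega
    · have := hx'.1
      have := hx.1
      omega
    · exact hx.2 hx'
    · rw [Set.mem_singleton_iff] at hx'
      subst hx'
      have := hx.1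
      omega

/-- **Three legs.** -/
theorem tripod {M i j k : ℤ} (hM : 1 ≤ M) (hi : 0 ≤ i ∧ i < 8 * M) (hj : 0 ≤ j ∧ j < 8 * M)
    (hk : 0 ≤ k ∧ k < 8 * M) (h1 : i ≠ j) (h2 : j ≠ k) (h3 : i ≠ k) {S1 S2 S3 : Set Vtx} {o : Vtx}
    (hS1 : ∀ v ∈ S1, rad (0, 0) v < M) (hS2 : ∀ v ∈ S2, rad (0, 0) v < M)
    (hS3 : ∀ v ∈ S3, rad (0, 0) v < M)
    {f1 f2 f3 : Vtx → ZMod 2} (w1 : Wr (RS (S1 ∪ {rr M i})) o (rr M i) f1)
    (w2 : Wr (RS (S2 ∪ {rr M j})) o (rr M j) f2) (w3 : Wr (RS (S3 ∪ {rr M k})) o (rr M k) f3)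
    {z : Vtx} (hz : rad (0, 0) z < M)
    (hp1 : VR ({v | rad (0, 0) v < M ∧ v ∉ S2 ∪ S3} ∪ {rr M i}) z (rr M i))
    (hp2 : VR ({v | rad (0, 0) v < M ∧ v ∉ S1 ∪ S3} ∪ {rr M j}) z (rr M j)) :
    f1 z + f2 z + ro i j k (z.2 + M) = 1 := by
  obtain ⟨g1, hg1, hz1⟩ := curve_ex hM hj hk hi h2 h3.symm h1.symm w2 w3
  obtain ⟨g2, hg2, hz2⟩ := curve_ex hM hi hk hj h3 h2.symm h1 w1 w3
  have e1 := curve_zero hM hi (by rintro v (hv | hv); exacts [hS2 v hv, hS3 v hv]) hg1 hp1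
  have e2 := curve_zero hM hj (by rintro v (hv | hv); exacts [hS1 v hv, hS3 v hv]) hg2 hp2
  rw [hz1 z hz] at e1
  rw [hz2 z hz] at e2
  have e3 := ro_sum h1 h2 h3 (z.2 + M)
  have e4 := zsum (f3 z)
  have e5 := zsum (ro j k i (z.2 + M))
  have e6 := zsum (ro i k j (z.2 + M))
  linear_combination e1 + e2 + e3 - e4 - e5 - e6

/-! ### Boundary vertices and boundary points -/

theorem ex_ix {M : ℤ} (hM : 1 ≤ M) {p : Vtx} (hp : rad (0, 0) p = M - 1) :
    ∃ i, (0 ≤ i ∧ i < 8 * M) ∧ Nb p (rr M i) := by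
  obtain ⟨p1, p2⟩ := p
  rw [rad0_eq] at hp
  simp only at hp
  obtain ⟨h1, h2 | h2 | h2 | h2⟩ := hp
  · refine ⟨p2 + M, by omega, ?_⟩
    unfold rr Nb
    split_ifs <;> simp only [true_or, or_true, true_and, and_true, false_or, or_false, false_and, and_false] <;> omega
  · refine ⟨5 * M - p2, by omega, ?_⟩
    unfold rr Nb
    split_ifs <;> simp only [true_or, or_true, true_and, and_true, false_or, or_false, false_and, and_false] <;> omega
  · refine ⟨3 * M - p1, by omega, ?_⟩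
    unfold rr Nb
    split_ifs <;> simp only [true_or, or_true, true_and, and_true, false_or, or_false, false_and, and_false] <;> omega
  · refine ⟨7 * M + p1, by omega, ?_⟩
    unfold rr Nb
    split_ifs <;> simp only [true_or, or_true, true_and, and_true, false_or, or_false, false_and, and_false] <;> omega

theorem ix_inj {M : ℤ} {p p' q : Vtx} (hp : rad (0, 0) p = M - 1)
    (hp' : rad (0, 0) p' = M - 1) (hq : rad (0, 0) q = M) (h : Nb p q) (h' : Nb p' q) : p = p' := by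
  obtain ⟨p1, p2⟩ := p
  obtain ⟨p1', p2'⟩ := p'
  obtain ⟨q1, q2⟩ := q
  rw [rad0_eq] at hp hp' hq
  unfold Nb at h h'
  simp only at *
  rw [Prod.mk.injEq]
  omega

end Pool.Agent.TH990.FA
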