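import Pool.Agent.TH990.FA.Defs

/-!
Walks modulo 2: winding numbers.
-/

set_option autoImplicit false

namespace Pool.Agent.TH990.FA

open H974 H12S Finset

theorem Nb.symm {u v : Vtx} (h : Nb u v) : Nb v u := by
  unfold Nb at *
  omega

theorem Nb.ne {u v : Vtx} (h : Nb u v) : u ≠ v := by
  rintro rfl
  unfold Nb at h
  omega

theorem cn_symm (b u v : Vtx) : cn b u v = cn b v u := by
  unfold cn
  have h : (b.1 < u.1 ∧ u.1 = v.1 ∧ ((u.2 = b.2 ∧ v.2 = b.2 + 1) ∨ (v.2 = b.2 ∧ u.2 = b.2 + 1))) ↔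
      (b.1 < v.1 ∧ v.1 = u.1 ∧ ((v.2 = b.2 ∧ u.2 = b.2 + 1) ∨ (u.2 = b.2 ∧ v.2 = b.2 + 1))) := by
    omega
  by_cases h1 : (b.1 < u.1 ∧ u.1 = v.1 ∧ ((u.2 = b.2 ∧ v.2 = b.2 + 1) ∨ (v.2 = b.2 ∧ u.2 = b.2 + 1)))
  · rw [if_pos h1, if_pos (h.1 h1)]
  · rw [if_neg h1, if_neg (fun h2 => h1 (h.2 h2))]

variable {R R' : Vtx → Vtx → Prop} {u v w : Vtx} {f g : Vtx → ZMod 2}

theorem Wr.mono (h : ∀ u v, R u v → R' u v) (w : Wr R u v f) : Wr R' u v f := by
  induction w with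
  | nil u => exact Wr.nil u
  | cons h1 _ ih => exact Wr.cons (h _ _ h1) ih

theorem Wr.cast (w : Wr R u v f) (h : ∀ b, f b = g b) : Wr R u v g := by
  have : f = g := funext h
  rw [← this]; exact w

theorem Wr.append (w1 : Wr R u v f) (w2 : Wr R v w g) : Wr R u w (fun b => f b + g b) := by
  induction w1 with
  | nil u => exact w2.cast (fun b => by ring)
  | cons h1 _ ih => exact (Wr.cons h1 (ih w2)).cast (fun b => by ring)

theorem Wr.single (h : R u v) : Wr R u v (fun b => cn b u v) :=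
  (Wr.cons h (Wr.nil v)).cast (fun b => by ring)

theorem Wr.symm (hR : ∀ u v, R u v → R v u) (w : Wr R u v f) : Wr R v u f := by
  induction w with
  | nil u => exact Wr.nil u
  | cons h1 _ ih =>
    exact (ih.append (Wr.single (hR _ _ h1))).cast (fun b => by rw [cn_symm b]; ring)

theorem RS.symm {S : Set Vtx} {u v : Vtx} (h : RS S u v) : RS S v u := ⟨h.1.symm, h.2.2, h.2.1⟩

theorem RS.mono {S T : Set Vtx} (hST : S ⊆ T) {u v : Vtx} (h : RS S u v) : RS T u v :=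
  ⟨h.1, hST h.2.1, hST h.2.2⟩

theorem zsum (a : ZMod 2) : a + a = 0 := by
  revert a; decide

/-- Indicator of the half-line above. -/
def hs (b u : Vtx) : ZMod 2 := if u.2 = b.2 + 1 ∧ b.1 < u.1 then 1 else 0

theorem step_up {b u v : Vtx} (h : Nb u v) (hu : u ≠ (b.1, b.2 + 1)) (hv : v ≠ (b.1, b.2 + 1)) :
    cn b u v + cn (b.1, b.2 + 1) u v = hs b u + hs b v := by
  obtain ⟨b1, b2⟩ := b
  obtain ⟨u1, u2⟩ := u
  obtain ⟨v1, v2⟩ := v
  unfold Nb at h
  simp only [ne_eq, Prod.mk.injEq, not_and] at hu hv h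
  unfold cn hs
  simp only
  split_ifs <;> first | (exfalso; omega) | decide

theorem step_rt {b u v : Vtx} (h : Nb u v) (hu : u ≠ (b.1 + 1, b.2)) (hv : v ≠ (b.1 + 1, b.2)) :
    cn b u v = cn (b.1 + 1, b.2) u v := by
  obtain ⟨b1, b2⟩ := b
  obtain ⟨u1, u2⟩ := u
  obtain ⟨v1, v2⟩ := v
  unfold Nb at h
  simp only [ne_eq, Prod.mk.injEq, not_and] at hu hv h
  unfold cn
  simp only
  split_ifs <;> first | (exfalso; omega) | rfl

theorem inv_up {b : Vtx} (hR : ∀ u v, R u v → Nb u v ∧ u ≠ (b.1, b.2 + 1) ∧ v ≠ (b.1, b.2 + 1))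
    (w : Wr R u v f) : f b + f (b.1, b.2 + 1) = hs b u + hs b v := by
  induction w with
  | nil u => rw [zsum, zsum]
  | @cons u v w f h1 _ ih =>
    obtain ⟨h2, h3, h4⟩ := hR _ _ h1
    have h5 := step_up h2 h3 h4
    have h6 := zsum (hs b v)
    linear_combination ih + h5 + h6

theorem inv_rt {b : Vtx} (hR : ∀ u v, R u v → Nb u v ∧ u ≠ (b.1 + 1, b.2) ∧ v ≠ (b.1 + 1, b.2))
    (w : Wr R u v f) : f b = f (b.1 + 1, b.2) := by
  induction w with
  | nil u => rfl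
  | cons h1 _ ih =>
    obtain ⟨h2, h3, h4⟩ := hR _ _ h1
    show cn b _ _ + _ = cn (b.1 + 1, b.2) _ _ + _
    rw [step_rt h2 h3 h4, ih]

/-- A closed walk has the same crossing number with respect to two neighbours which it avoids. -/
theorem closed_nb (hR : ∀ u v, R u v → Nb u v) {b b' : Vtx} (hb : ∀ u v, R u v → u ≠ b ∧ v ≠ b)
    (hb' : ∀ u v, R u v → u ≠ b' ∧ v ≠ b') (hn : Nb b b') (w : Wr R u u f) : f b = f b' := by
  have key : ∀ {x y : Vtx}, (∀ u v, R u v → u ≠ y ∧ v ≠ y) → y = (x.1, x.2 + 1) → f x = f y := by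
    intro x y h e
    subst e
    have h1 := inv_up (b := x) (fun u v h2 => ⟨hR u v h2, h u v h2⟩) w
    rw [zsum] at h1
    have h2 := zsum (f (x.1, x.2 + 1))
    linear_combination h1 - h2
  have key2 : ∀ {x y : Vtx}, (∀ u v, R u v → u ≠ y ∧ v ≠ y) → y = (x.1 + 1, x.2) → f x = f y := by
    intro x y h e
    subst e
    exact inv_rt (b := x) (fun u v h2 => ⟨hR u v h2, h u v h2⟩) w
  rcases hn with ⟨h1, h2 | h2⟩ | ⟨h1, h2 | h2⟩
  · exact (key hb (Prod.ext h1 h2)).symm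
  · exact key hb' (Prod.ext h1.symm h2)
  · exact (key2 hb (Prod.ext h2 h1)).symm
  · exact key2 hb' (Prod.ext h2 h1.symm)

theorem Adj_nb {E : Set Edg} {u v : Vtx} (h : Adj E u v) : Nb u v := by
  obtain ⟨⟨x, y, β⟩, he, ⟨h1, h2⟩ | ⟨h1, h2⟩⟩ := h <;> subst h1 <;> subst h2 <;> cases β <;>
    simp [Nb, src, tgt]

theorem Adj_EV {W : Set Vtx} {u v : Vtx} : Adj (EV W) u v ↔ RS W u v := by
  constructor
  · intro h
    refine ⟨Adj_nb h, ?_⟩
    obtain ⟨e, he, ⟨h1, h2⟩ | ⟨h1, h2⟩⟩ := h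
    · rw [← h1, ← h2]; exact ⟨he.1, he.2⟩
    · rw [← h1, ← h2]; exact ⟨he.2, he.1⟩
  · rintro ⟨h, hu, hv⟩
    rcases h with ⟨h1, h2 | h2⟩ | ⟨h1, h2 | h2⟩
    · refine ⟨(v.1, v.2, false), ⟨?_, ?_⟩, Or.inr ⟨rfl, ?_⟩⟩
      · exact hv
      · rw [show tgt (v.1, v.2, false) = u by rw [tgt_false]; exact Prod.ext h1.symm h2.symm]
        exact hu
      · rw [tgt_false]; exact Prod.ext h1.symm h2.symm
    · refine ⟨(u.1, u.2, false), ⟨?_, ?_⟩, Or.inl ⟨rfl, ?_⟩⟩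
      · exact hu
      · rw [show tgt (u.1, u.2, false) = v by rw [tgt_false]; exact Prod.ext h1 h2.symm]
        exact hv
      · rw [tgt_false]; exact Prod.ext h1 h2.symm
    · refine ⟨(v.1, v.2, true), ⟨?_, ?_⟩, Or.inr ⟨rfl, ?_⟩⟩
      · exact hv
      · rw [show tgt (v.1, v.2, true) = u by rw [tgt_true]; exact Prod.ext h2.symm h1.symm]
        exact hu
      · rw [tgt_true]; exact Prod.ext h2.symm h1.symm
    · refine ⟨(u.1, u.2, true), ⟨?_, ?_⟩, Or.inl ⟨rfl, ?_⟩⟩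
      · exact hu
      · rw [show tgt (u.1, u.2, true) = v by rw [tgt_true]; exact Prod.ext h2.symm h1]
        exact hv
      · rw [tgt_true]; exact Prod.ext h2.symm h1

/-- A path gives a walk. -/
theorem exists_wr {E : Set Edg} {u v : Vtx} (h : Reach E u v) : ∃ f, Wr (Adj E) u v f := by
  induction h with
  | refl => exact ⟨_, Wr.nil u⟩
  | tail _ h2 ih =>
    obtain ⟨f, hf⟩ := ih
    exact ⟨_, hf.append (Wr.single h2)⟩

theorem exists_rs {W : Set Vtx} {u v : Vtx} (h : Reach (EV W) u v) : ∃ f, Wr (RS W) u v f := by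
  obtain ⟨f, hf⟩ := exists_wr h
  exact ⟨f, hf.mono (fun u v h => Adj_EV.1 h)⟩

theorem VR.refl {W : Set Vtx} {x : Vtx} (h : x ∈ W) : VR W x x := ⟨h, Reach.refl _ _⟩

theorem VR.mem_right {W : Set Vtx} {x y : Vtx} (h : VR W x y) : y ∈ W := by
  obtain ⟨h1, h2⟩ := h
  induction h2 with
  | refl => exact h1
  | tail _ h3 _ => exact (Adj_EV.1 h3).2.2

theorem VR.trans {W : Set Vtx} {x y z : Vtx} (h : VR W x y) (h' : VR W y z) : VR W x z :=
  ⟨h.1, h.2.trans h'.2⟩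

theorem VR.symm {W : Set Vtx} {x y : Vtx} (h : VR W x y) : VR W y x := ⟨h.mem_right, h.2.symm⟩

theorem EV_mono {W W' : Set Vtx} (h : W ⊆ W') : EV W ⊆ EV W' := fun _ he => ⟨h he.1, h he.2⟩

theorem VR.mono {W W' : Set Vtx} (hW : W ⊆ W') {x y : Vtx} (h : VR W x y) : VR W' x y :=
  ⟨hW h.1, h.2.mono (EV_mono hW)⟩

theorem VR.single {W : Set Vtx} {x y : Vtx} (h : Nb x y) (hx : x ∈ W) (hy : y ∈ W) : VR W x y :=
  ⟨hx, (Adj_EV.2 ⟨h, hx, hy⟩).reach⟩

/-- A closed walk has the same crossing number with respect to two vertices which are joined by a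
path which it avoids. -/
theorem closed_vr {S W : Set Vtx} (hd : Disjoint S W) {b b' : Vtx} (h : VR W b b')
    (w : Wr (RS S) u u f) : f b = f b' := by
  obtain ⟨h1, h2⟩ := h
  have hd' : ∀ x ∈ S, x ∉ W := fun x hx hx' => Set.disjoint_left.1 hd hx hx'
  induction h2 with
  | refl => rfl
  | @tail x y _ h3 ih =>
    obtain ⟨h4, h5, h6⟩ := Adj_EV.1 h3
    rw [ih]
    refine closed_nb (fun u v h => h.1) (fun u v h => ⟨?_, ?_⟩) (fun u v h => ⟨?_, ?_⟩) h4 w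
    · rintro rfl; exact hd' _ h.2.1 h5
    · rintro rfl; exact hd' _ h.2.2 h5
    · rintro rfl; exact hd' _ h.2.1 h6
    · rintro rfl; exact hd' _ h.2.2 h6

theorem wr_zero {b : Vtx} (h : ∀ u v, R u v → cn b u v = 0) (w : Wr R u v f) : f b = 0 := by
  induction w with
  | nil u => rfl
  | cons h1 _ ih =>
    show cn b _ _ + _ = 0
    rw [h _ _ h1, ih, add_zero]

/-! ### Distances -/

theorem rad_nonneg (c v : Vtx) : 0 ≤ rad c v := le_max_of_le_left (abs_nonneg _)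

theorem rad_le {c v : Vtx} {k : ℤ} : rad c v ≤ k ↔
    (c.1 - k ≤ v.1 ∧ v.1 ≤ c.1 + k) ∧ (c.2 - k ≤ v.2 ∧ v.2 ≤ c.2 + k) := by
  unfold rad
  rw [max_le_iff, abs_le, abs_le]
  constructor
  · rintro ⟨⟨h1, h2⟩, h3, h4⟩; omega
  · rintro ⟨⟨h1, h2⟩, h3, h4⟩; omega

theorem rad_lt {c v : Vtx} {k : ℤ} : k < rad c v ↔
    (v.1 < c.1 - k ∨ c.1 + k < v.1) ∨ (v.2 < c.2 - k ∨ c.2 + k < v.2) := by
  rw [← not_le, rad_le]
  omega

theorem rad_nb {c u v : Vtx} (h : Nb u v) : rad c v ≤ rad c u + 1 := by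
  have h1 : rad c u ≤ rad c u := le_rfl
  rw [rad_le] at h1
  rw [rad_le]
  unfold Nb at h
  omega

theorem rad_tri (c c' v : Vtx) : rad c v ≤ rad c c' + rad c' v := by
  have h1 : rad c c' ≤ rad c c' := le_rfl
  have h2 : rad c' v ≤ rad c' v := le_rfl
  rw [rad_le] at h1 h2
  rw [rad_le]
  omega

theorem rad_symm (c v : Vtx) : rad c v = rad v c := by
  unfold rad
  rw [abs_sub_comm, abs_sub_comm v.2]

/-- Outside of a square which contains a closed walk its crossing numbers vanish. -/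
theorem closed_far {S : Set Vtx} {c : Vtx} {k : ℤ} (hS : ∀ x ∈ S, rad c x ≤ k)
    (w : Wr (RS S) u u f) {z : Vtx} (hz : k < rad c z) : f z = 0 := by
  have hS' : ∀ x ∈ S, (c.1 - k ≤ x.1 ∧ x.1 ≤ c.1 + k) ∧ (c.2 - k ≤ x.2 ∧ x.2 ≤ c.2 + k) :=
    fun x hx => rad_le.1 (hS x hx)
  have hk : ∀ z' : Vtx, (c.1 + k ≤ z'.1 ∨ c.2 + k ≤ z'.2 ∨ z'.2 < c.2 - k) → f z' = 0 := by
    intro z' hz'
    refine wr_zero (fun u v h => ?_) w
    have h1 := hS' u h.2.1
    have h2 := hS' v h.2.2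
    unfold cn
    rw [if_neg]
    omega
  rw [rad_lt] at hz
  by_cases hc : c.1 + k ≤ z.1 ∨ c.2 + k ≤ z.2 ∨ z.2 < c.2 - k
  · exact hk z hc
  have hz1 : z.1 < c.1 - k := by omega
  have hd : Disjoint S {x : Vtx | x.1 < c.1 - k} := by
    rw [Set.disjoint_left]
    intro x hx hx'
    have := hS' x hx
    have h3 : x.1 < c.1 - k := hx'
    omega
  have hcol : ∀ n : ℕ, VR {x : Vtx | x.1 < c.1 - k} z (z.1, z.2 + n) := by
    intro n
    induction n with
    | zero => simpa using VR.refl (W := {x : Vtx | x.1 < c.1 - k}) (x := z) hz1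
    | succ n ih =>
      refine ih.trans (VR.single ?_ hz1 hz1)
      left
      refine ⟨rfl, Or.inr ?_⟩
      simp only
      push_cast
      ring
  rw [closed_vr hd (hcol (c.2 + k - z.2).toNat) w]
  apply hk
  right; left
  simp only
  omega

end Pool.Agent.TH990.FA
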